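import Pool.Agent.Y492.Chess.Grid

set_option autoImplicit false

/-!
# The curved chessboard conjecture fails for all `n × n` grids with `3 ≤ n ≤ 11`

There are two sequences of circular arcs in `ℝ³` whose first `n + 1` members form an `n × n` grid for
every `n ≤ 11`, and for `3 ≤ n ≤ 11` no composition of inversions maps the union of the arcs of this
grid into a set of type (C), (D), (E), or into the zero set of a polynomial of degree at most 4 in
`x, y, z, x² + y² + z²`.

The counting of parameters (6 for a circle, one condition for two circles to meet, 10 for the
inversions) only lets one hope for `n ≤ 10`.  Here the circles of the first family are orthogonal to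
the plane `x = 0` and those of the second to the plane `y = 0`, and both families are invariant under
the reflections in the two planes; then one equation makes four pairs of circles meet.  The six plus
six circles which generate the grid solve 144 equations in 156 unknowns; an exact real solution is
produced by a Newton-Kantorovich argument with integer arithmetic in the kernel.  The first four arcs
of each family already impose 55 independent conditions on the 55 dimensional space of the polynomials
of degree at most 4 in `x, y, z, x² + y² + z²`.
-/

namespace Pool.Agent.Results.MP_d8c3a3_gt.LargerGrids

open H537R3.Chess Pool.Agent.Y492.Chess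

/-- **Theorem.**  There are sequences `A`, `B` of circular arcs such that for every `n` with
`3 ≤ n ≤ 11` the first `n + 1` arcs of `A` and the first `n + 1` arcs of `B` form an `n × n` grid, and
for every composition of inversions and every set `T` of type (C), (D), (E) or of the form
`{Q(x, y, z, x² + y² + z²) = 0} ≠ ℝ³`, `deg Q ≤ 4`, some point of the union of the arcs of this grid,
at which all the successive inversions are defined, is not mapped into `T`. -/
theorem result : ∃ A B : ℕ → Set E3, ∀ n : ℕ, 3 ≤ n → n ≤ 11 →
    IsGrid n (fun i => A i) (fun j => B j) ∧
    ∀ l : List (E3 × ℝ), (∀ s ∈ l, 0 < s.2) →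
      ∀ T : Set E3, (TypeC T ∨ TypeD T ∨ TypeE T ∨ TypeQ T) →
      ∃ x ∈ (⋃ i : Fin (n + 1), A i) ∪ ⋃ j : Fin (n + 1), B j, InvDefined l x ∧ applyInv l x ∉ T := by
  obtain ⟨A, B, h⟩ := main_grids
  exact ⟨A, B, fun n h3 hn => h n h3 (by unfold na; omega) (by unfold nb; omega)⟩

end Pool.Agent.Results.MP_d8c3a3_gt.LargerGrids
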